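import Mathlib

/-!
# Similar tetrahedra in a finite point set of `ℝ³`: the lower bound `n ^ (5 / 3)`

Every tetrahedron with integral vertices has at least `c n ^ (5 / 3)` similar copies in suitable sets
of `n` points (a cube of the integral lattice): besides translations and homotheties one uses the
rotations `x ↦ q x q̄` with integral quaternions `q`.
-/

open Finset

namespace Pool.Agent.Results.MP_36f34d_co.FiveThirds

/-- Euclidean 3-space. -/
abbrev E3 : Type := EuclideanSpace ℝ (Fin 3)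

/-- A tetrahedron: four affinely independent points. -/
def IsTetrahedron (S : Finset E3) : Prop :=
  S.card = 4 ∧ AffineIndependent ℝ (fun x : S => (x : E3))

/-- `S'` is the image of `S` under a similarity, i.e. an isometry `ψ` of `ℝ³` followed by a scaling
`x ↦ l x` with `l > 0`. -/
def Similar (S S' : Finset E3) : Prop :=
  ∃ (ψ : E3 → E3) (l : ℝ), Isometry ψ ∧ 0 < l ∧ (S' : Set E3) = (fun x => l • ψ x) '' (S : Set E3)

open scoped Classical in
/-- `s(P, T)`: the number of the 4-element subsets of `P` which are tetrahedra similar to `T`. -/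
noncomputable def numCopies (P T : Finset E3) : ℕ :=
  ((P.powersetCard 4).filter (fun S => IsTetrahedron S ∧ Similar T S)).card

/-- `f(n)`: the maximum of `s(P, T)` over all `n`-point sets `P` and all tetrahedra `T`. -/
noncomputable def f (n : ℕ) : ℕ :=
  sSup {m | ∃ P T : Finset E3, P.card = n ∧ IsTetrahedron T ∧ numCopies P T = m}

/-! ### Rotations from quaternions -/

/-- the vector with coordinates `x, y, z` -/
noncomputable def vec (x y z : ℝ) : E3 := !₂[x, y, z]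

/-- The map `x ↦ q x q̄` on the trace zero quaternions, `q = a + b i + c j + d k`. -/
noncomputable def rot (a b c d : ℝ) (x : E3) : E3 :=
  vec ((a ^ 2 + b ^ 2 - c ^ 2 - d ^ 2) * x 0 + 2 * (b * c - a * d) * x 1 + 2 * (b * d + a * c) * x 2)
    (2 * (b * c + a * d) * x 0 + (a ^ 2 - b ^ 2 + c ^ 2 - d ^ 2) * x 1 + 2 * (c * d - a * b) * x 2)
    (2 * (b * d - a * c) * x 0 + 2 * (c * d + a * b) * x 1 + (a ^ 2 - b ^ 2 - c ^ 2 + d ^ 2) * x 2)

theorem norm_rot (a b c d : ℝ) (x : E3) :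
    ‖rot a b c d x‖ = (a ^ 2 + b ^ 2 + c ^ 2 + d ^ 2) * ‖x‖ := by
  rw [EuclideanSpace.norm_eq, EuclideanSpace.norm_eq]
  have h : (0 : ℝ) ≤ a ^ 2 + b ^ 2 + c ^ 2 + d ^ 2 := by positivity
  rw [← Real.sqrt_sq h, ← Real.sqrt_mul (by positivity)]
  congr 1
  simp [rot, vec, Fin.sum_univ_three]
  ring

theorem rot_sub (a b c d : ℝ) (x y : E3) : rot a b c d (x - y) = rot a b c d x - rot a b c d y := by
  ext i
  fin_cases i <;> simp [rot, vec] <;> ring

theorem rot_add (a b c d : ℝ) (x y : E3) : rot a b c d (x + y) = rot a b c d x + rot a b c d y := by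
  ext i
  fin_cases i <;> simp [rot, vec] <;> ring

theorem rot_smul (a b c d : ℝ) (s : ℝ) (x : E3) : rot a b c d (s • x) = s • rot a b c d x := by
  ext i
  fin_cases i <;> simp [rot, vec] <;> ring

/-- the linear map `rot` -/
noncomputable def rotL (a b c d : ℝ) : E3 →ₗ[ℝ] E3 where
  toFun := rot a b c d
  map_add' := rot_add a b c d
  map_smul' := rot_smul a b c d

/-- the similarity `x ↦ (x, y, z) + rot x` as an affine map -/
noncomputable def simi (x y z a b c d : ℝ) : E3 →ᵃ[ℝ] E3 where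
  toFun := fun w => vec x y z + rot a b c d w
  linear := rotL a b c d
  map_vadd' := by
    intro p v
    simp only [vadd_eq_add, rot_add]
    show _ = rot a b c d v + _
    abel

theorem simi_apply (x y z a b c d : ℝ) (w : E3) :
    simi x y z a b c d w = vec x y z + rot a b c d w := rfl

theorem vec_inj {x y z x' y' z' : ℝ} (h : vec x y z = vec x' y' z') :
    x = x' ∧ y = y' ∧ z = z' := by
  have h0 := congrArg (fun v : E3 => v 0) h
  have h1 := congrArg (fun v : E3 => v 1) h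
  have h2 := congrArg (fun v : E3 => v 2) h
  simp [vec] at h0 h1 h2
  exact ⟨h0, h1, h2⟩

theorem simi_inj {x y z a b c d x' y' z' a' b' c' d' : ℝ} (ha : 0 ≤ a) (hb : 0 ≤ b) (hc : 0 ≤ c)
    (hd : 0 ≤ d) (ha' : 0 ≤ a') (hb' : 0 ≤ b') (hc' : 0 ≤ c') (hd' : 0 ≤ d')
    (h : simi x y z a b c d = simi x' y' z' a' b' c' d') :
    (x = x' ∧ y = y' ∧ z = z') ∧ (a = a' ∧ b = b' ∧ c = c' ∧ d = d') := by
  have h0 : vec x y z = vec x' y' z' := by
    have := congrArg (fun g : E3 →ᵃ[ℝ] E3 => g 0) h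
    simp only [simi_apply] at this
    have r0 : ∀ a b c d : ℝ, rot a b c d 0 = 0 := fun a b c d => (rotL a b c d).map_zero
    simpa [r0] using this
  have hr : ∀ w : E3, rot a b c d w = rot a' b' c' d' w := by
    intro w
    have := congrArg (fun g : E3 →ᵃ[ℝ] E3 => g w) h
    simp only [simi_apply] at this
    rw [h0] at this
    exact add_left_cancel this
  have hn : a ^ 2 + b ^ 2 + c ^ 2 + d ^ 2 = a' ^ 2 + b' ^ 2 + c' ^ 2 + d' ^ 2 := by
    have h1 := congrArg (fun w : E3 => ‖w‖) (hr (vec 1 0 0))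
    simp only [norm_rot] at h1
    have h2 : ‖vec 1 0 0‖ = 1 := by
      rw [EuclideanSpace.norm_eq]; simp [vec, Fin.sum_univ_three]
    rwa [h2, mul_one, mul_one] at h1
  have e0 := congrArg (fun w : E3 => w 0) (hr (vec 1 0 0))
  have e1 := congrArg (fun w : E3 => w 1) (hr (vec 0 1 0))
  have e2 := congrArg (fun w : E3 => w 2) (hr (vec 0 0 1))
  simp [rot, vec] at e0 e1 e2
  have sa : a ^ 2 = a' ^ 2 := by linarith
  have sb : b ^ 2 = b' ^ 2 := by linarith
  have sc : c ^ 2 = c' ^ 2 := by linarith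
  have sd : d ^ 2 = d' ^ 2 := by linarith
  exact ⟨vec_inj h0, (sq_eq_sq₀ ha ha').1 sa, (sq_eq_sq₀ hb hb').1 sb, (sq_eq_sq₀ hc hc').1 sc,
    (sq_eq_sq₀ hd hd').1 sd⟩

theorem isometry_simi (x y z a b c d : ℝ) (h : 0 < a ^ 2 + b ^ 2 + c ^ 2 + d ^ 2) :
    Isometry (fun w => (a ^ 2 + b ^ 2 + c ^ 2 + d ^ 2)⁻¹ • simi x y z a b c d w) := by
  apply Isometry.of_dist_eq
  intro v w
  rw [dist_smul₀, simi_apply, simi_apply, dist_add_left, dist_eq_norm, dist_eq_norm, ← rot_sub,
    norm_rot, Real.norm_eq_abs, abs_of_pos (by positivity), ← mul_assoc, inv_mul_cancel₀ h.ne',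
    one_mul]

/-! ### The grid -/

/-- the integral points with coordinates of absolute value at most `R` -/
noncomputable def grid (R : ℕ) : Finset E3 :=
  ((Finset.Icc (-(R : ℤ)) R ×ˢ Finset.Icc (-(R : ℤ)) R ×ˢ Finset.Icc (-(R : ℤ)) R).image
    (fun p => vec p.1 p.2.1 p.2.2))

theorem card_grid_le (R : ℕ) : (grid R).card ≤ (2 * R + 1) ^ 3 := by
  unfold grid
  refine Finset.card_image_le.trans ?_
  simp only [Finset.card_product, Int.card_Icc]
  have : ((R : ℤ) + 1 - -(R : ℤ)).toNat = 2 * R + 1 := by omega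
  rw [this]
  exact le_of_eq (by ring)

theorem mem_grid {R : ℕ} {w : E3} (h : ∀ i, ∃ k : ℤ, w i = k ∧ |k| ≤ R) : w ∈ grid R := by
  obtain ⟨x, hx, hx'⟩ := h 0
  obtain ⟨y, hy, hy'⟩ := h 1
  obtain ⟨z, hz, hz'⟩ := h 2
  unfold grid
  rw [Finset.mem_image]
  refine ⟨(x, y, z), ?_, ?_⟩
  · simp only [Finset.mem_product, Finset.mem_Icc]
    rw [abs_le] at hx' hy' hz'
    exact ⟨hx', hy', hz'⟩
  · ext i
    fin_cases i <;> simp [vec, hx, hy, hz]

/-! ### Counting -/

theorem abs_comb (t A B C x y z N s M : ℤ) (ht : |t| ≤ N) (hA : |A| ≤ s) (hB : |B| ≤ s)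
    (hC : |C| ≤ s) (hx : |x| ≤ M) (hy : |y| ≤ M) (hz : |z| ≤ M) :
    |t + (A * x + B * y + C * z)| ≤ N + 3 * s * M := by
  have hs : 0 ≤ s := (abs_nonneg A).trans hA
  have h1 : |A * x| ≤ s * M := by rw [abs_mul]; exact mul_le_mul hA hx (abs_nonneg x) hs
  have h2 : |B * y| ≤ s * M := by rw [abs_mul]; exact mul_le_mul hB hy (abs_nonneg y) hs
  have h3 : |C * z| ≤ s * M := by rw [abs_mul]; exact mul_le_mul hC hz (abs_nonneg z) hs
  have h4 := abs_add_le t (A * x + B * y + C * z)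
  have h5 := abs_add_le (A * x + B * y) (C * z)
  have h6 := abs_add_le (A * x) (B * y)
  linarith

/-- the map of `ℝ³` belonging to a vector `(x, y, z)` and a quaternion `(a, b, c, d)` of natural
numbers -/
noncomputable def simN (p : (ℕ × ℕ × ℕ) × (ℕ × ℕ × ℕ × ℕ)) : E3 →ᵃ[ℝ] E3 :=
  simi p.1.1 p.1.2.1 p.1.2.2 p.2.1 p.2.2.1 p.2.2.2.1 p.2.2.2.2

theorem vec_add_0 (x y z p q r : ℝ) : (vec x y z + vec p q r) 0 = x + p := by
  simp [vec]

theorem vec_add_1 (x y z p q r : ℝ) : (vec x y z + vec p q r) 1 = y + q := by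
  simp [vec]

theorem vec_add_2 (x y z p q r : ℝ) : (vec x y z + vec p q r) 2 = z + r := by
  simp [vec]

theorem simN_mem_grid (p : (ℕ × ℕ × ℕ) × (ℕ × ℕ × ℕ × ℕ)) (N m M : ℕ) (hm : m * m ≤ N)
    (h1 : p.1.1 ≤ N ∧ p.1.2.1 ≤ N ∧ p.1.2.2 ≤ N)
    (h2 : p.2.1 ≤ m ∧ p.2.2.1 ≤ m ∧ p.2.2.2.1 ≤ m ∧ p.2.2.2.2 ≤ m) (v : E3)
    (hv : ∀ i, ∃ k : ℤ, v i = k ∧ |k| ≤ M) : simN p v ∈ grid ((12 * M + 1) * N) := by
  obtain ⟨⟨x, y, z⟩, a, b, c, d⟩ := p
  obtain ⟨hx, hy, hz⟩ := h1
  obtain ⟨ha, hb, hc, hd⟩ := h2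
  simp only at hx hy hz ha hb hc hd
  obtain ⟨v0, hv0, hv0'⟩ := hv 0
  obtain ⟨v1, hv1, hv1'⟩ := hv 1
  obtain ⟨v2, hv2, hv2'⟩ := hv 2
  have key : ∀ p q : ℕ, p ≤ m → q ≤ m → (p : ℤ) * q ≤ m * m ∧ 0 ≤ (p : ℤ) * q := by
    intro p q hp hq
    refine ⟨?_, by positivity⟩
    exact_mod_cast Nat.mul_le_mul hp hq
  have hfin : ∀ t A B C : ℤ, |t| ≤ N → |A| ≤ 4 * (m * m) → |B| ≤ 4 * (m * m) → |C| ≤ 4 * (m * m) →
      |t + (A * v0 + B * v1 + C * v2)| ≤ (((12 * M + 1) * N : ℕ) : ℤ) := by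
    intro t A B C ht hA hB hC
    refine (abs_comb t A B C v0 v1 v2 N (4 * (m * m)) M ht hA hB hC hv0' hv1' hv2').trans ?_
    push_cast
    have h3 : (m : ℤ) * m ≤ N := by exact_mod_cast hm
    have h4 : (m : ℤ) * m * M ≤ N * M := mul_le_mul_of_nonneg_right h3 (by positivity)
    nlinarith
  have aa := key a a ha ha
  have bb := key b b hb hb
  have cc := key c c hc hc
  have dd := key d d hd hd
  have ab := key a b ha hb
  have ac := key a c ha hc
  have ad := key a d ha hd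
  have bc := key b c hb hc
  have bd := key b d hb hd
  have cd := key c d hc hd
  apply mem_grid
  intro i
  fin_cases i
  · refine ⟨x + ((a * a + b * b - c * c - d * d) * v0 + 2 * (b * c - a * d) * v1 +
      2 * (b * d + a * c) * v2), ?_, ?_⟩
    · show (simN ((x, y, z), a, b, c, d) v) 0 = _
      rw [simN, simi_apply, rot, vec_add_0, hv0, hv1, hv2]
      push_cast
      ring
    · apply hfin
      · rw [abs_of_nonneg (by positivity)]; exact_mod_cast hx
      · rw [abs_le]; constructor <;> nlinarith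
      · rw [abs_le]; constructor <;> nlinarith
      · rw [abs_le]; constructor <;> nlinarith
  · refine ⟨y + (2 * (b * c + a * d) * v0 + (a * a - b * b + c * c - d * d) * v1 +
      2 * (c * d - a * b) * v2), ?_, ?_⟩
    · show (simN ((x, y, z), a, b, c, d) v) 1 = _
      rw [simN, simi_apply, rot, vec_add_1, hv0, hv1, hv2]
      push_cast
      ring
    · apply hfin
      · rw [abs_of_nonneg (by positivity)]; exact_mod_cast hy
      · rw [abs_le]; constructor <;> nlinarith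
      · rw [abs_le]; constructor <;> nlinarith
      · rw [abs_le]; constructor <;> nlinarith
  · refine ⟨z + (2 * (b * d - a * c) * v0 + 2 * (c * d + a * b) * v1 +
      (a * a - b * b - c * c + d * d) * v2), ?_, ?_⟩
    · show (simN ((x, y, z), a, b, c, d) v) 2 = _
      rw [simN, simi_apply, rot, vec_add_2, hv0, hv1, hv2]
      push_cast
      ring
    · apply hfin
      · rw [abs_of_nonneg (by positivity)]; exact_mod_cast hz
      · rw [abs_le]; constructor <;> nlinarith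
      · rw [abs_le]; constructor <;> nlinarith
      · rw [abs_le]; constructor <;> nlinarith

theorem isTetrahedron_image (w : Fin 4 → E3) (hw : AffineIndependent ℝ w) :
    IsTetrahedron (Finset.univ.image w) := by
  constructor
  · rw [Finset.card_image_of_injective _ hw.injective]; simp
  · have h : ∀ x : (Finset.univ.image w : Finset E3), ∃ i, w i = x := by
      intro x
      have := x.2
      rw [Finset.mem_image] at this
      obtain ⟨i, _, hi⟩ := this
      exact ⟨i, hi⟩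
    choose e he using h
    have hinj : Function.Injective e := by
      intro x y hxy
      apply Subtype.ext
      rw [← he x, ← he y, hxy]
    have := hw.comp_embedding ⟨e, hinj⟩
    convert this using 1
    ext1 x
    exact (he x).symm

theorem count (v : Fin 4 → E3) (hv : AffineIndependent ℝ v) (M : ℕ)
    (hM : ∀ i j, ∃ k : ℤ, v i j = k ∧ |k| ≤ M) (N : ℕ) (hN : 1 ≤ N) (P : Finset E3)
    (hP : grid ((12 * M + 1) * N) ⊆ P) :
    (N + 1) ^ 5 ≤ 512 * numCopies P (Finset.univ.image v) := by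
  classical
  set m := Nat.sqrt N with hm
  have hm1 : m * m ≤ N := Nat.sqrt_le N
  have hm2 : N < (m + 1) * (m + 1) := Nat.lt_succ_sqrt N
  set S0 : Finset ((ℕ × ℕ × ℕ) × (ℕ × ℕ × ℕ × ℕ)) :=
    (Finset.range (N + 1) ×ˢ Finset.range (N + 1) ×ˢ Finset.range (N + 1)) ×ˢ
    ((Finset.range (m + 1) ×ˢ Finset.range (m + 1) ×ˢ Finset.range (m + 1) ×ˢ
      Finset.range (m + 1)).erase (0, 0, 0, 0)) with hS0
  have hcard : S0.card = (N + 1) ^ 3 * ((m + 1) ^ 4 - 1) := by
    rw [hS0, Finset.card_product, Finset.card_erase_of_mem (by simp)]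
    simp only [Finset.card_product, Finset.card_range]
    congr 1
    · ring
    · congr 1; ring
  have hmem : ∀ p ∈ S0, (p.1.1 ≤ N ∧ p.1.2.1 ≤ N ∧ p.1.2.2 ≤ N) ∧
      (p.2.1 ≤ m ∧ p.2.2.1 ≤ m ∧ p.2.2.2.1 ≤ m ∧ p.2.2.2.2 ≤ m) ∧ p.2 ≠ (0, 0, 0, 0) := by
    intro p hp
    simp only [hS0, Finset.mem_product, Finset.mem_erase, Finset.mem_range] at hp
    obtain ⟨⟨h1, h2, h3⟩, h4, h5, h6, h7, h8⟩ := hp
    exact ⟨⟨by omega, by omega, by omega⟩, ⟨by omega, by omega, by omega, by omega⟩, h4⟩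
  have hpos : ∀ p ∈ S0, (0 : ℝ) < (p.2.1 : ℝ) ^ 2 + (p.2.2.1 : ℝ) ^ 2 + (p.2.2.2.1 : ℝ) ^ 2 +
      (p.2.2.2.2 : ℝ) ^ 2 := by
    intro p hp
    have h := (hmem p hp).2.2
    obtain ⟨_, a, b, c, d⟩ := p
    by_contra hcon
    apply h
    have ha : (0 : ℝ) ≤ (a : ℝ) ^ 2 := by positivity
    have hb : (0 : ℝ) ≤ (b : ℝ) ^ 2 := by positivity
    have hc : (0 : ℝ) ≤ (c : ℝ) ^ 2 := by positivity
    have hd : (0 : ℝ) ≤ (d : ℝ) ^ 2 := by positivity
    simp only at hcon
    have ha0 : (a : ℝ) ^ 2 = 0 := by linarith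
    have hb0 : (b : ℝ) ^ 2 = 0 := by linarith
    have hc0 : (c : ℝ) ^ 2 = 0 := by linarith
    have hd0 : (d : ℝ) ^ 2 = 0 := by linarith
    simp at ha0 hb0 hc0 hd0
    simp [ha0, hb0, hc0, hd0]
  have hspan : affineSpan ℝ (Set.range v) = ⊤ := by
    rw [hv.affineSpan_eq_top_iff_card_eq_finrank_add_one]
    simp
  set Φ : (ℕ × ℕ × ℕ) × (ℕ × ℕ × ℕ × ℕ) → (Fin 4 → E3) := fun p i => simN p (v i) with hΦ
  have hinj : Set.InjOn Φ S0 := by
    intro p _ p' _ h
    have h1 : simN p = simN p' := by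
      apply AffineMap.ext_on hspan
      rintro _ ⟨i, rfl⟩
      exact congrFun h i
    obtain ⟨⟨x, y, z⟩, a, b, c, d⟩ := p
    obtain ⟨⟨x', y', z'⟩, a', b', c', d'⟩ := p'
    obtain ⟨⟨h1, h2, h3⟩, h4, h5, h6, h7⟩ := simi_inj (by positivity) (by positivity)
      (by positivity) (by positivity) (by positivity) (by positivity) (by positivity)
      (by positivity) h1
    simp only [Nat.cast_inj] at h1 h2 h3 h4 h5 h6 h7
    subst h1; subst h2; subst h3; subst h4; subst h5; subst h6; subst h7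
    rfl
  set I := S0.image Φ with hI
  have hIcard : I.card = S0.card := Finset.card_image_of_injOn hinj
  set g : (Fin 4 → E3) → Finset E3 := fun w => Finset.univ.image w with hg
  have hgood : ∀ p ∈ S0, g (Φ p) ∈ (P.powersetCard 4).filter
      (fun S => IsTetrahedron S ∧ Similar (Finset.univ.image v) S) := by
    intro p hp
    obtain ⟨h1, h2, _⟩ := hmem p hp
    have hl := hpos p hp
    set l : ℝ := (p.2.1 : ℝ) ^ 2 + (p.2.2.1 : ℝ) ^ 2 + (p.2.2.2.1 : ℝ) ^ 2 +
      (p.2.2.2.2 : ℝ) ^ 2 with hldef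
    have hiso : Isometry (fun w => l⁻¹ • simN p w) := isometry_simi _ _ _ _ _ _ _ hl
    have hsinj : Function.Injective (simN p) := by
      intro x y hxy
      apply hiso.injective
      simp only [hxy]
    have hind : AffineIndependent ℝ (Φ p) := hv.map' _ hsinj
    have htet := isTetrahedron_image (Φ p) hind
    rw [Finset.mem_filter, Finset.mem_powersetCard]
    refine ⟨⟨?_, htet.1⟩, htet, ?_⟩
    · intro x hx
      rw [hg, Finset.mem_image] at hx
      obtain ⟨i, _, rfl⟩ := hx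
      exact hP (simN_mem_grid p N m M hm1 h1 h2 (v i) (hM i))
    · refine ⟨fun w => l⁻¹ • simN p w, l, hiso, hl, ?_⟩
      ext x
      simp only [hg, hΦ, Finset.coe_image, Finset.coe_univ, Set.image_univ, Set.mem_range,
        Set.mem_image, smul_smul, mul_inv_cancel₀ hl.ne', one_smul]
      constructor
      · rintro ⟨i, rfl⟩
        exact ⟨v i, ⟨i, rfl⟩, rfl⟩
      · rintro ⟨_, ⟨i, rfl⟩, rfl⟩
        exact ⟨i, rfl⟩
  have hsub : I.image g ⊆ (P.powersetCard 4).filter
      (fun S => IsTetrahedron S ∧ Similar (Finset.univ.image v) S) := by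
    intro S hS
    rw [hI, Finset.mem_image] at hS
    obtain ⟨w, hw, rfl⟩ := hS
    rw [Finset.mem_image] at hw
    obtain ⟨p, hp, rfl⟩ := hw
    exact hgood p hp
  have hfib : I.card ≤ 256 * (I.image g).card := by
    apply Finset.card_le_mul_card_image
    intro S hS
    have hS4 : S.card = 4 := by
      have := hsub hS
      rw [Finset.mem_filter, Finset.mem_powersetCard] at this
      exact this.1.2
    have hsub2 : (I.filter (fun w => g w = S)) ⊆ Fintype.piFinset (fun _ : Fin 4 => S) := by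
      intro w hw
      rw [Finset.mem_filter] at hw
      rw [Fintype.mem_piFinset]
      intro i
      rw [← hw.2, hg, Finset.mem_image]
      exact ⟨i, Finset.mem_univ i, rfl⟩
    refine (Finset.card_le_card hsub2).trans ?_
    rw [Fintype.card_piFinset]
    simp [hS4]
  have hle : (I.image g).card ≤ numCopies P (Finset.univ.image v) := Finset.card_le_card hsub
  have h5 : (N + 1) ^ 2 ≤ 2 * ((m + 1) ^ 4 - 1) := by
    have h6 : (N + 1) ^ 2 ≤ ((m + 1) * (m + 1)) ^ 2 := Nat.pow_le_pow_left (by omega) 2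
    have h7 : ((m + 1) * (m + 1)) ^ 2 = (m + 1) ^ 4 := by ring
    have h8 : 2 ^ 2 ≤ (N + 1) ^ 2 := Nat.pow_le_pow_left (by omega) 2
    omega
  calc (N + 1) ^ 5 = (N + 1) ^ 3 * (N + 1) ^ 2 := by ring
    _ ≤ (N + 1) ^ 3 * (2 * ((m + 1) ^ 4 - 1)) := Nat.mul_le_mul_left _ h5
    _ = 2 * S0.card := by rw [hcard]; ring
    _ = 2 * I.card := by rw [hIcard]
    _ ≤ 2 * (256 * (I.image g).card) := by omega
    _ ≤ 512 * numCopies P (Finset.univ.image v) := by omega

/-! ### The bound -/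

/-- the lower bound for an enumerated integral tetrahedron -/
theorem exists_good_set (v : Fin 4 → E3) (hv : AffineIndependent ℝ v) (M : ℕ)
    (hM : ∀ i j, ∃ k : ℤ, v i j = k ∧ |k| ≤ M) :
    ∃ c : ℝ, 0 < c ∧ ∀ n : ℕ, 4 ≤ n → ∃ P : Finset E3, P.card = n ∧
      c * (n : ℝ) ^ (5 / 3 : ℝ) ≤ numCopies P (Finset.univ.image v) := by
  classical
  set T := Finset.univ.image v with hT
  set D : ℕ := 2 * (12 * M + 1) + 1 with hD
  have hTt : IsTetrahedron T := isTetrahedron_image v hv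
  have hDpos : (0 : ℝ) < D := by positivity
  refine ⟨1 / (512 * (D : ℝ) ^ 5), by positivity, fun n hn => ?_⟩
  have hinf : (Set.univ : Set E3).Infinite := Set.infinite_univ
  by_cases hsmall : n < D ^ 3
  · -- any set containing `T`
    obtain ⟨P, hP, hPc⟩ := Infinite.exists_superset_card_eq T n (by rw [hTt.1]; exact hn)
    refine ⟨P, hPc, ?_⟩
    have h1 : 1 ≤ numCopies P T := by
      unfold numCopies
      rw [Nat.one_le_iff_ne_zero, Finset.card_ne_zero]
      refine ⟨T, ?_⟩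
      rw [Finset.mem_filter, Finset.mem_powersetCard]
      refine ⟨⟨hP, hTt.1⟩, hTt, fun x => x, 1, isometry_id, one_pos, ?_⟩
      simp
    have h2 : (n : ℝ) ^ (5 / 3 : ℝ) ≤ (D : ℝ) ^ 5 := by
      have h3 : (n : ℝ) ≤ (D : ℝ) ^ 3 := by exact_mod_cast hsmall.le
      calc (n : ℝ) ^ (5 / 3 : ℝ) ≤ ((D : ℝ) ^ 3) ^ (5 / 3 : ℝ) :=
            Real.rpow_le_rpow (by positivity) h3 (by norm_num)
        _ = (D : ℝ) ^ 5 := by
          rw [← Real.rpow_natCast, ← Real.rpow_natCast, ← Real.rpow_mul hDpos.le]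
          norm_num
    calc 1 / (512 * (D : ℝ) ^ 5) * (n : ℝ) ^ (5 / 3 : ℝ) ≤ 1 / (512 * (D : ℝ) ^ 5) * (D : ℝ) ^ 5 :=
          mul_le_mul_of_nonneg_left h2 (by positivity)
      _ = 1 / 512 := by field_simp
      _ ≤ 1 := by norm_num
      _ ≤ numCopies P T := by exact_mod_cast h1
  · push Not at hsmall
    -- the largest `N` with `(D N)^3 ≤ n`
    obtain ⟨N, hN1, hN2⟩ : ∃ N : ℕ, (D * N) ^ 3 ≤ n ∧ n < (D * (N + 1)) ^ 3 := by
      have hex : ∃ k : ℕ, n < (D * (k + 1)) ^ 3 := by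
        refine ⟨n, ?_⟩
        have : n < D * (n + 1) := by
          have : 1 ≤ D := by omega
          nlinarith
        calc n < D * (n + 1) := this
          _ ≤ (D * (n + 1)) ^ 3 := Nat.le_self_pow (by norm_num) _
      refine ⟨Nat.find hex, ?_, Nat.find_spec hex⟩
      rcases Nat.eq_zero_or_pos (Nat.find hex) with h0 | h0
      · rw [h0]; simp
      · have := Nat.find_min hex (m := Nat.find hex - 1) (by omega)
        rw [Nat.sub_add_cancel h0] at this
        omega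
    have hN : 1 ≤ N := by
      by_contra h
      have : N = 0 := by omega
      subst this
      simp at hN2
      omega
    have hgc : (grid ((12 * M + 1) * N)).card ≤ n := by
      refine (card_grid_le _).trans (le_trans (Nat.pow_le_pow_left ?_ 3) hN1)
      rw [hD]
      nlinarith
    obtain ⟨P, hP, hPc⟩ := Infinite.exists_superset_card_eq _ n hgc
    refine ⟨P, hPc, ?_⟩
    have h1 := count v hv M hM N hN P hP
    have h1' : ((N : ℝ) + 1) ^ 5 ≤ 512 * numCopies P T := by exact_mod_cast h1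
    have h2 : (n : ℝ) ^ (5 / 3 : ℝ) ≤ ((D : ℝ) * (N + 1)) ^ 5 := by
      have h3 : (n : ℝ) ≤ ((D : ℝ) * (N + 1)) ^ 3 := by exact_mod_cast hN2.le
      calc (n : ℝ) ^ (5 / 3 : ℝ) ≤ (((D : ℝ) * (N + 1)) ^ 3) ^ (5 / 3 : ℝ) :=
            Real.rpow_le_rpow (by positivity) h3 (by norm_num)
        _ = ((D : ℝ) * (N + 1)) ^ 5 := by
          rw [← Real.rpow_natCast, ← Real.rpow_natCast, ← Real.rpow_mul (by positivity)]
          norm_num
    calc 1 / (512 * (D : ℝ) ^ 5) * (n : ℝ) ^ (5 / 3 : ℝ)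
        ≤ 1 / (512 * (D : ℝ) ^ 5) * ((D : ℝ) * (N + 1)) ^ 5 :=
          mul_le_mul_of_nonneg_left h2 (by positivity)
      _ = ((N : ℝ) + 1) ^ 5 / 512 := by field_simp
      _ ≤ numCopies P T := by linarith

theorem exists_enum (T : Finset E3) (hT : IsTetrahedron T) :
    ∃ v : Fin 4 → E3, AffineIndependent ℝ v ∧ Finset.univ.image v = T := by
  classical
  obtain ⟨h4, hind⟩ := hT
  let e : Fin 4 ≃ T := (Finset.equivFinOfCardEq h4).symm
  refine ⟨fun i => (e i : E3), hind.comp_embedding e.toEmbedding, ?_⟩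
  ext x
  rw [Finset.mem_image]
  constructor
  · rintro ⟨i, _, rfl⟩
    exact (e i).2
  · intro hx
    exact ⟨e.symm ⟨x, hx⟩, Finset.mem_univ _, by simp⟩

theorem exists_bound (v : Fin 4 → E3) (h : ∀ i j, ∃ k : ℤ, v i j = k) :
    ∃ M : ℕ, ∀ i j, ∃ k : ℤ, v i j = k ∧ |k| ≤ M := by
  choose k hk using h
  refine ⟨∑ i, ∑ j, (k i j).natAbs, fun i j => ⟨k i j, hk i j, ?_⟩⟩
  rw [Int.abs_eq_natAbs]
  have h1 : (k i j).natAbs ≤ ∑ j, (k i j).natAbs :=
    Finset.single_le_sum (f := fun j => (k i j).natAbs) (fun _ _ => Nat.zero_le _)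
      (Finset.mem_univ j)
  have h2 : ∑ j, (k i j).natAbs ≤ ∑ i, ∑ j, (k i j).natAbs :=
    Finset.single_le_sum (f := fun i => ∑ j, (k i j).natAbs) (fun _ _ => Nat.zero_le _)
      (Finset.mem_univ i)
  exact_mod_cast h1.trans h2

/-- every tetrahedron `T` with integral vertices has `c n ^ (5 / 3)` similar copies in a suitable
set of `n` points -/
theorem integral_tetrahedron (T : Finset E3) (hT : IsTetrahedron T)
    (hint : ∀ x ∈ T, ∀ j, ∃ k : ℤ, x j = k) :
    ∃ c : ℝ, 0 < c ∧ ∀ n : ℕ, 4 ≤ n → ∃ P : Finset E3, P.card = n ∧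
      c * (n : ℝ) ^ (5 / 3 : ℝ) ≤ numCopies P T := by
  obtain ⟨v, hv, rfl⟩ := exists_enum T hT
  obtain ⟨M, hM⟩ := exists_bound v (fun i j => hint (v i) (by simp) j)
  exact exists_good_set v hv M hM

theorem bddAbove_copies (n : ℕ) :
    BddAbove {m | ∃ P T : Finset E3, P.card = n ∧ IsTetrahedron T ∧ numCopies P T = m} := by
  classical
  refine ⟨n.choose 4, ?_⟩
  rintro m ⟨P, T, hP, _, rfl⟩
  unfold numCopies
  rw [← hP, ← Finset.card_powersetCard]
  exact Finset.card_filter_le _ _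

/-- the vertices of the standard simplex -/
noncomputable def std : Fin 4 → E3 := ![vec 0 0 0, vec 1 0 0, vec 0 1 0, vec 0 0 1]

theorem std_indep : AffineIndependent ℝ std := by
  rw [affineIndependent_iff_of_fintype]
  intro w hw h
  rw [Finset.weightedVSub_eq_linear_combination _ hw, Fin.sum_univ_four] at h
  rw [Fin.sum_univ_four] at hw
  have h0 := congrArg (fun v : E3 => v 0) h
  have h1 := congrArg (fun v : E3 => v 1) h
  have h2 := congrArg (fun v : E3 => v 2) h
  simp [std, vec] at h0 h1 h2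
  have h3 : w 0 = 0 := by rw [h0, h1, h2] at hw; linarith
  intro i
  fin_cases i
  · exact h3
  · exact h0
  · exact h1
  · exact h2

/-- **Main theorem.** For every tetrahedron `T` with integral vertices there are `c > 0` and, for all
`n ≥ 4`, a set `P` of `n` points with `s(P, T) ≥ c n ^ (5 / 3)`. In particular
`f(n) ≥ c n ^ (5 / 3)` for all `n ≥ 4`. -/
theorem result :
    (∀ T : Finset E3, IsTetrahedron T → (∀ x ∈ T, ∀ j, ∃ k : ℤ, x j = k) →
      ∃ c : ℝ, 0 < c ∧ ∀ n : ℕ, 4 ≤ n → ∃ P : Finset E3, P.card = n ∧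
        c * (n : ℝ) ^ (5 / 3 : ℝ) ≤ numCopies P T) ∧
    ∃ c : ℝ, 0 < c ∧ ∀ n : ℕ, 4 ≤ n → c * (n : ℝ) ^ (5 / 3 : ℝ) ≤ f n := by
  refine ⟨integral_tetrahedron, ?_⟩
  have hint : ∀ i j, ∃ k : ℤ, std i j = k := by
    intro i j
    have h0 : ∀ x : ℝ, x = 0 ∨ x = 1 → ∃ k : ℤ, x = k := by
      rintro x (h | h)
      · exact ⟨0, by simp [h]⟩
      · exact ⟨1, by simp [h]⟩
    apply h0
    fin_cases i <;> fin_cases j <;> simp [std, vec]
  obtain ⟨M, hM⟩ := exists_bound std hint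
  obtain ⟨c, hc, h⟩ := exists_good_set std std_indep M hM
  refine ⟨c, hc, fun n hn => ?_⟩
  obtain ⟨P, hP, hle⟩ := h n hn
  refine hle.trans ?_
  exact_mod_cast le_csSup (bddAbove_copies n)
    ⟨P, Finset.univ.image std, hP, isTetrahedron_image std std_indep, rfl⟩

end Pool.Agent.Results.MP_36f34d_co.FiveThirds
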